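import Pool.Agent.X56.SC.Final

set_option autoImplicit false

/-!
The smallest number of vertices of a graph with subchromatic number five is fifteen.

Proof. Suppose `G` has fourteen vertices and no subcolouring with four classes. Call a set a cluster
if it induces a disjoint union of complete graphs. Every graph with five (nine) vertices has a
subcolouring with two (three) classes, so `G` has no cluster with five vertices, and removing a
cluster with four vertices leaves a graph with ten vertices and no subcolouring with three classes.
Such a graph contains four vertices `a, b, c, d` with no edge between `{a, b}` and `{c, d}`. So `G`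
has two disjoint such quadruples, and the remaining six vertices have no subcolouring with two
classes; there are three such graphs `T`. For each `T` there are 38, 5 and 48 ways to join it to a
quadruple, up to the symmetries of the quadruple, without a cluster with five vertices and without
a subcolouring with three classes. For each two of them all sixteen pairs between the two
quadruples are undetermined, and in each case there is a cluster with five vertices or a
subcolouring with four classes. The finite checks are decision trees (about 17000 leaves) verified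
by the kernel. The complete multipartite graph `K_{1,2,3,4,5}` has fifteen vertices and
subchromatic number five.
-/

open Finset

namespace Pool.Agent.Results.MP_7a0182_co.FifteenVertices

/-- The vertices of `G` can be partitioned into `k` (possibly empty) classes, given by the map `c`,
such that in each class any two different neighbours of a vertex of the class are adjacent, that is,
each class induces a disjoint union of complete graphs. -/
def Subcolourable {V : Type} (G : SimpleGraph V) (k : ℕ) : Prop :=
  ∃ c : V → Fin k, ∀ x y z : V, c x = c y → c y = c z →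
    G.Adj x y → G.Adj y z → x ≠ z → G.Adj x z

/-- The subchromatic number: the least number of classes of a subcolouring. -/
noncomputable def subchromaticNumber {V : Type} (G : SimpleGraph V) : ℕ :=
  sInf {k : ℕ | Subcolourable G k}

theorem sub_mono {V : Type} {G : SimpleGraph V} {k l : ℕ} (h : k ≤ l) (hk : Subcolourable G k) :
    Subcolourable G l := by
  obtain ⟨c, hc⟩ := hk
  refine ⟨fun x => Fin.castLE h (c x), fun x y z h1 h2 => hc x y z ?_ ?_⟩
  · exact Fin.castLE_injective h h1
  · exact Fin.castLE_injective h h2

theorem sub14 {n : ℕ} (hn : n ≤ 14) (G : SimpleGraph (Fin n)) : Subcolourable G 4 := by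
  obtain ⟨f, h1, h2⟩ := Pool.Agent.X56.SC.fourteen (G := G.map (Fin.castLEEmb hn))
    (A := (univ : Finset (Fin 14))) (by simp)
  refine ⟨fun x => ⟨f (Fin.castLEEmb hn x), h1 _ (mem_univ _)⟩, ?_⟩
  intro x y z hxy hyz a1 a2 a3
  have e1 : f (Fin.castLEEmb hn x) = f (Fin.castLEEmb hn y) := by simpa using hxy
  have e2 : f (Fin.castLEEmb hn y) = f (Fin.castLEEmb hn z) := by simpa using hyz
  have := h2 _ (mem_univ _) _ (mem_univ _) _ (mem_univ _) e1 e2
    ((SimpleGraph.map_adj_apply).mpr a1) ((SimpleGraph.map_adj_apply).mpr a2)
    (fun h => a3 ((Fin.castLEEmb hn).injective h))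
  exact (SimpleGraph.map_adj_apply).mp this

theorem multi : ∀ (k : ℕ) (C : Finset ℕ) (f : ℕ → ℕ → ℕ), (∀ i < k, ∀ j ≤ i, f i j ∈ C) →
    (∀ i < k, ∀ i' < k, i ≠ i' → ∀ j ≤ i, ∀ j' ≤ i, ∀ l ≤ i', j ≠ j' → f i j = f i' l →
      f i' l = f i j' → False) → k ≤ C.card
  | 0, _, _, _, _ => Nat.zero_le _
  | k + 1, C, f, hf, hv => by
      by_cases hinj : ∀ j ≤ k, ∀ j' ≤ k, f k j = f k j' → j = j'
      · have := card_le_card_of_injOn (s := range (k + 1)) (t := C) (fun j => f k j)
          (fun j hj => hf k (by omega) j (by have := mem_range.mp hj; omega))
          (fun j hj j' hj' h => hinj j (by have := mem_range.mp hj; omega) j'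
            (by have := mem_range.mp hj'; omega) h)
        rwa [card_range] at this
      · push Not at hinj
        obtain ⟨j, hj, j', hj', he, hne⟩ := hinj
        have ih := multi k (C.erase (f k j)) f (fun i hi l hl => ?_) (fun i hi i' hi' =>
          hv i (by omega) i' (by omega))
        · rw [card_erase_of_mem (hf k (by omega) j hj)] at ih
          have : 0 < C.card := card_pos.mpr ⟨_, hf k (by omega) j hj⟩
          omega
        · refine mem_erase.mpr ⟨fun h => ?_, hf i (by omega) l hl⟩
          exact hv k (by omega) i (by omega) (by omega) j hj j' hj' l hl hne h.symm (h.trans he)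

/-- the part of a vertex of `K_{1,2,3,4,5}` -/
def part (v : ℕ) : ℕ :=
  if v < 1 then 0 else if v < 3 then 1 else if v < 6 then 2 else if v < 10 then 3 else 4

/-- the complete multipartite graph `K_{1,2,3,4,5}` -/
def K : SimpleGraph (Fin 15) where
  Adj u v := part u ≠ part v
  symm := ⟨fun _ _ h => Ne.symm h⟩
  loopless := ⟨fun _ h => h rfl⟩

theorem K5 : Subcolourable K 5 := by
  refine ⟨fun v => ⟨part v, ?_⟩, ?_⟩
  · unfold part; split_ifs <;> omega
  · intro x y z hxy _ a1
    exact absurd (by simpa using hxy) a1

theorem part_e : ∀ i < 5, ∀ j ≤ i, i * (i + 1) / 2 + j < 15 ∧ part (i * (i + 1) / 2 + j) = i := by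
  decide

theorem K4 : ¬ Subcolourable K 4 := by
  rintro ⟨c, hc⟩
  have h := multi 5 (range 4)
    (fun i j => if h : i * (i + 1) / 2 + j < 15 then (c ⟨i * (i + 1) / 2 + j, h⟩ : ℕ) else 0) ?_ ?_
  · simp at h
  · intro i hi j hj
    simp only [(part_e i hi j hj).1, dif_pos]
    exact mem_range.mpr (c _).2
  · intro i hi i' hi' hne j hj j' hj' l hl hjj h1 h2
    simp only [(part_e i hi j hj).1, (part_e i' hi' l hl).1, (part_e i hi j' hj').1,
      dif_pos] at h1 h2
    have := hc ⟨i * (i + 1) / 2 + j, (part_e i hi j hj).1⟩
      ⟨i' * (i' + 1) / 2 + l, (part_e i' hi' l hl).1⟩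
      ⟨i * (i + 1) / 2 + j', (part_e i hi j' hj').1⟩ (Fin.ext h1) (Fin.ext h2)
      (by change part _ ≠ part _
          rw [(part_e i hi j hj).2, (part_e i' hi' l hl).2]; exact hne)
      (by change part _ ≠ part _
          rw [(part_e i hi j' hj').2, (part_e i' hi' l hl).2]; exact hne.symm)
      (by intro h; exact hjj (by simpa using h))
    apply this
    change part _ = part _
    rw [(part_e i hi j hj).2, (part_e i hi j' hj').2]

/-- `n_s(5) = 15`: the least number of vertices of a graph with subchromatic number five is
fifteen. -/
theorem result :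
    IsLeast {n : ℕ | ∃ G : SimpleGraph (Fin n), subchromaticNumber G = 5} 15 := by
  constructor
  · refine ⟨K, le_antisymm (Nat.sInf_le K5) (le_csInf ⟨5, K5⟩ fun k hk => ?_)⟩
    by_contra h
    exact K4 (sub_mono (by omega) hk)
  · rintro n ⟨G, hG⟩
    by_contra h
    have h4 : subchromaticNumber G ≤ 4 := Nat.sInf_le (sub14 (by omega : n ≤ 14) G)
    omega

end Pool.Agent.Results.MP_7a0182_co.FifteenVertices
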